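import Pool.Agent.W5h30.SR.Fam
import Pool.Agent.W5h30.An.Clt

/-!
# Square root bounds in windows of places after a given place
-/

set_option autoImplicit false

namespace Pool.Agent.W5h30.SR

open Finset Real MeasureTheory Filter Topology
open Pool.Agent.Y933.KD
open Pool.Agent.W5h30.An (SF good_SF)

/-- in base `b`, for all windows of places between `s0` and `L` and all intervals, the number of
visits differs from the expected number by at most `T` times the square root of one plus the expected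
number -/
def SqW (b s0 : ℕ) (L T x : ℝ) : Prop :=
  ∀ s N : ℕ, s0 ≤ s → (s : ℝ) + N ≤ L → ∀ u v : ℝ, 0 ≤ u → u ≤ v → v ≤ 1 →
    |(((range N).filter (fun i => u ≤ Int.fract ((b : ℝ) ^ (s + i) * x) ∧
      Int.fract ((b : ℝ) ^ (s + i) * x) < v)).card : ℝ) - N * (v - u)| ≤ T * √(1 + N * (v - u))

lemma SqW_of {b s0 : ℕ} {L T x : ℝ} (h : Sq b L T ((b : ℝ) ^ s0 * x)) :
    SqW b s0 (s0 + L) T x := by
  intro s N hs hsN u v hu huv hv
  obtain ⟨s', rfl⟩ := Nat.exists_eq_add_of_le hs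
  push_cast at hsN
  have key := h s' N (by linarith) u v hu huv hv
  have e1 : ∀ i : ℕ, (b : ℝ) ^ (s' + i) * ((b : ℝ) ^ s0 * x) = (b : ℝ) ^ (s0 + s' + i) * x := by
    intro i
    rw [← mul_assoc, ← pow_add]
    congr 2
    omega
  simp only [e1] at key
  exact key

open Classical in
theorem sqrt_T {ι : Type*} {b : ℕ} (hb : 2 ≤ b) {A K ρ ε κ : ℝ} (hε : 0 < ε) (hρ : 0 < ρ)
    (hK : 1 + 1 + A * log b ≤ K) :
    ∃ M0 : ℕ, ∀ M : ℕ, M0 ≤ M → ∀ (T : Finset ι) (y : ι → ℝ) (s0 : ℕ), T.Nonempty →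
      (∀ l : ℤ, l ≠ 0 → |(l : ℝ)| ≤ (M : ℝ) ^ K →
        ‖∑ m ∈ T, Pool.Agent.H469R2.NK.e (l * (b : ℝ) ^ s0 * y m)‖ ≤ T.card * (M : ℝ) ^ (-ρ)) →
      ((T.filter (fun m => ¬ SqW b s0 (s0 + A * log M) ((log M) ^ ε) (y m))).card : ℝ) ≤
        (log M) ^ (-κ) * T.card := by
  obtain ⟨M0, h⟩ := sqrt_family (κ := κ) hb hε (S := SF K ρ) (A := A) (fun M _ P hP => hP.1)
    (fun k => good_SF hρ hK k)
  refine ⟨M0, fun M hM T y s0 hT hsum => ?_⟩
  obtain ⟨U, hU, hP, hx⟩ := h M hM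
  have hT0 : (0 : ℝ) < T.card := by exact_mod_cast hT.card_pos
  have h1 := hP (unif T fun m => (b : ℝ) ^ s0 * y m) (by
    refine ⟨unif_prob hT _, ?_⟩
    intro l hl hl2
    unfold hat
    rw [integral_unif]
    have e1 : ∑ m ∈ T, Pool.Agent.Y933.KD.e (l * ((b : ℝ) ^ s0 * y m)) =
        ∑ m ∈ T, Pool.Agent.H469R2.NK.e (l * (b : ℝ) ^ s0 * y m) := by
      refine Finset.sum_congr rfl fun m _ => ?_
      rw [← mul_assoc]
      rfl
    rw [e1, norm_mul, norm_div, norm_one, Complex.norm_natCast, one_div, inv_mul_le_iff₀ hT0]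
    exact hsum l hl hl2)
  rw [real_unif _ _ hU, div_le_iff₀ hT0] at h1
  refine le_trans ?_ h1
  refine Nat.cast_le.2 (Finset.card_le_card fun m hm => ?_)
  rw [Finset.mem_filter] at hm ⊢
  refine ⟨hm.1, ?_⟩
  by_contra hmU
  exact hm.2 (SqW_of (hx _ hmU))

end Pool.Agent.W5h30.SR
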