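import Pool.Agent.W5h30.SR.Leb

/-!
# The number of visits to an interval: one event
-/

set_option autoImplicit false

namespace Pool.Agent.W5h30.SR

open Finset Real MeasureTheory Filter Topology
open Pool.Agent.Y933.KD

/-- the centred indicator function of the words between `c0` and `c1` -/
noncomputable def gi (b w c0 c1 : ℕ) (c : ℕ) : ℝ :=
  if c < b ^ w then (if c0 ≤ c ∧ c < c1 then 1 else 0) - ((c1 : ℝ) - c0) / (b : ℝ) ^ w else 0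

variable {b w c0 c1 : ℕ}

lemma gi_frac (hb : 1 ≤ b) (h0 : c0 ≤ c1) (h1 : c1 ≤ b ^ w) :
    0 ≤ ((c1 : ℝ) - c0) / (b : ℝ) ^ w ∧ ((c1 : ℝ) - c0) / (b : ℝ) ^ w ≤ 1 := by
  have hb' : (0 : ℝ) < b := by exact_mod_cast hb
  have h2 : (c0 : ℝ) ≤ c1 := by exact_mod_cast h0
  have h3 : (c1 : ℝ) ≤ (b : ℝ) ^ w := by exact_mod_cast h1
  have h4 : (0 : ℝ) ≤ c0 := Nat.cast_nonneg _
  refine ⟨div_nonneg (by linarith) (by positivity), ?_⟩
  rw [div_le_one (by positivity)]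
  linarith

lemma gi_le (hb : 1 ≤ b) (h0 : c0 ≤ c1) (h1 : c1 ≤ b ^ w) (c : ℕ) : |gi b w c0 c1 c| ≤ 1 := by
  obtain ⟨h2, h3⟩ := gi_frac hb h0 h1
  unfold gi
  split_ifs
  · rw [abs_le]; constructor <;> linarith
  · rw [abs_le]; constructor <;> linarith
  · simp

lemma gi_card (h1 : c1 ≤ b ^ w) :
    ((range (b ^ w)).filter (fun c => c0 ≤ c ∧ c < c1)) = Finset.Ico c0 c1 := by
  ext c
  rw [mem_filter, mem_range, Finset.mem_Ico]
  constructor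
  · rintro ⟨_, h⟩; exact h
  · rintro ⟨h2, h3⟩; exact ⟨by omega, h2, h3⟩

lemma gi_ind_sum (h0 : c0 ≤ c1) (h1 : c1 ≤ b ^ w) :
    ∑ c ∈ range (b ^ w), (if c0 ≤ c ∧ c < c1 then (1 : ℝ) else 0) = (c1 : ℝ) - c0 := by
  rw [← Finset.sum_filter, gi_card h1, sum_const, Nat.card_Ico, nsmul_eq_mul, mul_one,
    Nat.cast_sub h0]

lemma gi_sum (hb : 1 ≤ b) (h0 : c0 ≤ c1) (h1 : c1 ≤ b ^ w) :
    ∑ c ∈ range (b ^ w), gi b w c0 c1 c = 0 := by
  have hb' : (0 : ℝ) < b := by exact_mod_cast hb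
  have h2 : ∑ c ∈ range (b ^ w), gi b w c0 c1 c =
      ∑ c ∈ range (b ^ w), ((if c0 ≤ c ∧ c < c1 then (1 : ℝ) else 0) -
        ((c1 : ℝ) - c0) / (b : ℝ) ^ w) := by
    refine sum_congr rfl fun c hc => ?_
    unfold gi
    rw [if_pos (mem_range.1 hc)]
  rw [h2, sum_sub_distrib, gi_ind_sum h0 h1, sum_const, card_range, nsmul_eq_mul]
  push_cast
  field_simp
  ring

lemma gi_sq (hb : 1 ≤ b) (h0 : c0 ≤ c1) (h1 : c1 ≤ b ^ w) :
    (∑ c ∈ range (b ^ w), gi b w c0 c1 c ^ 2) / (b : ℝ) ^ w ≤ ((c1 : ℝ) - c0) / (b : ℝ) ^ w := by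
  have hb' : (0 : ℝ) < b := by exact_mod_cast hb
  obtain ⟨h3, h4⟩ := gi_frac hb h0 h1
  have h2 : ∑ c ∈ range (b ^ w), gi b w c0 c1 c ^ 2 ≤
      ∑ c ∈ range (b ^ w), ((1 - 2 * (((c1 : ℝ) - c0) / (b : ℝ) ^ w)) *
        (if c0 ≤ c ∧ c < c1 then (1 : ℝ) else 0) + (((c1 : ℝ) - c0) / (b : ℝ) ^ w) ^ 2) := by
    refine sum_le_sum fun c hc => ?_
    unfold gi
    rw [if_pos (mem_range.1 hc)]
    split_ifs <;> nlinarith
  have h5 : ∑ c ∈ range (b ^ w), ((1 - 2 * (((c1 : ℝ) - c0) / (b : ℝ) ^ w)) *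
        (if c0 ≤ c ∧ c < c1 then (1 : ℝ) else 0) + (((c1 : ℝ) - c0) / (b : ℝ) ^ w) ^ 2) =
      (1 - 2 * (((c1 : ℝ) - c0) / (b : ℝ) ^ w)) * ((c1 : ℝ) - c0) +
        (b : ℝ) ^ w * (((c1 : ℝ) - c0) / (b : ℝ) ^ w) ^ 2 := by
    rw [sum_add_distrib, ← mul_sum, gi_ind_sum h0 h1, sum_const, card_range, nsmul_eq_mul]
    push_cast
    ring
  rw [h5] at h2
  have hbw : (0 : ℝ) < (b : ℝ) ^ w := by positivity
  rw [div_le_iff₀ hbw]
  refine h2.trans ?_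
  set p := ((c1 : ℝ) - c0) / (b : ℝ) ^ w with hp
  have e1 : (c1 : ℝ) - c0 = p * (b : ℝ) ^ w := by rw [hp]; field_simp
  rw [e1]
  have h6 : 0 ≤ p ^ 2 * (b : ℝ) ^ w := by positivity
  nlinarith

lemma wd_range_iff (hb : 1 ≤ b) (n : ℕ) (x : ℝ) :
    (c0 ≤ wd b w n x ∧ wd b w n x < c1) ↔
      (c0 : ℝ) / (b : ℝ) ^ w ≤ Int.fract ((b : ℝ) ^ n * x) ∧
        Int.fract ((b : ℝ) ^ n * x) < (c1 : ℝ) / (b : ℝ) ^ w := by
  have hb' : (0 : ℝ) < b := by exact_mod_cast hb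
  have hbw : (0 : ℝ) < (b : ℝ) ^ w := by positivity
  have h0 : 0 ≤ (b : ℝ) ^ w * Int.fract ((b : ℝ) ^ n * x) := mul_nonneg hbw.le (Int.fract_nonneg _)
  unfold wd
  rw [Nat.le_floor_iff h0, Nat.floor_lt h0, div_le_iff₀ hbw, lt_div_iff₀ hbw, mul_comm]

/-- the number of visits -/
lemma WS_gi (hb : 1 ≤ b) (s N : ℕ) (x : ℝ) :
    WS b w (gi b w c0 c1) s N x =
      (((range N).filter (fun i => (c0 : ℝ) / (b : ℝ) ^ w ≤ Int.fract ((b : ℝ) ^ (s + i) * x) ∧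
        Int.fract ((b : ℝ) ^ (s + i) * x) < (c1 : ℝ) / (b : ℝ) ^ w)).card : ℝ) -
        N * (((c1 : ℝ) - c0) / (b : ℝ) ^ w) := by
  unfold WS
  have h1 : ∀ n ∈ range N, gi b w c0 c1 (wd b w (s + n) x) =
      (if (c0 : ℝ) / (b : ℝ) ^ w ≤ Int.fract ((b : ℝ) ^ (s + n) * x) ∧
        Int.fract ((b : ℝ) ^ (s + n) * x) < (c1 : ℝ) / (b : ℝ) ^ w then (1 : ℝ) else 0) -
        ((c1 : ℝ) - c0) / (b : ℝ) ^ w := by
    intro n _
    unfold gi
    rw [if_pos (wd_lt hb _ _ _)]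
    congr 1
    exact if_congr (wd_range_iff hb _ _) rfl rfl
  rw [sum_congr rfl h1, sum_sub_distrib, sum_boole, sum_const, card_range, nsmul_eq_mul]

/-- Markov's inequality for even moments -/
lemma markov_even {P : Measure ℝ} [IsProbabilityMeasure P] {f : ℝ → ℝ} (hf : Measurable f) {R : ℝ}
    (hR : ∀ x, |f x| ≤ R) (k : ℕ) {a : ℝ} (ha : 0 < a) :
    P.real {x | a < |f x|} ≤ (∫ x, f x ^ (2 * k) ∂P) / a ^ (2 * k) := by
  have hm : MeasurableSet {x | a < |f x|} := measurableSet_lt measurable_const hf.abs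
  have hak : 0 < a ^ (2 * k) := by positivity
  have hint : Integrable (fun x => f x ^ (2 * k)) P := by
    refine integrable_of_bdd (hf.pow_const _) (R := R ^ (2 * k)) fun x => ?_
    rw [abs_pow]
    exact pow_le_pow_left₀ (abs_nonneg _) (hR x) _
  rw [le_div_iff₀ hak, ← integral_indicator_one hm, mul_comm, ← integral_const_mul]
  refine integral_mono ?_ hint fun x => ?_
  · exact ((integrable_const (1 : ℝ)).indicator hm).const_mul _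
  · by_cases hx : x ∈ {x | a < |f x|}
    · rw [Set.indicator_of_mem hx, Pi.one_apply, mul_one]
      have h1 : a < |f x| := hx
      calc a ^ (2 * k) ≤ |f x| ^ (2 * k) := pow_le_pow_left₀ ha.le h1.le _
        _ = f x ^ (2 * k) := by rw [pow_mul, sq_abs, ← pow_mul]
    · rw [Set.indicator_of_notMem hx, mul_zero]
      rw [pow_mul]
      positivity

/-- one event -/
lemma event_tail (hb : 1 ≤ b) (hw : 1 ≤ w) (h0 : c0 ≤ c1) (h1 : c1 ≤ b ^ w) (s N k : ℕ)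
    (P : Measure ℝ) [IsProbabilityMeasure P] {Δ : ℝ} (hΔ : 0 ≤ Δ)
    (h : ∀ (n : Fin (2 * k) → ℕ) (u v : Fin (2 * k) → ℝ), (∀ i, n i ≤ s + N) → (∀ i, 0 ≤ u i) →
      (∀ i, v i ≤ 1) → |P.real (Ev (fun _ => b) n u v) - Leb.real (Ev (fun _ => b) n u v)| ≤ Δ)
    {τ : ℝ} (hτ : 0 < τ) :
    P.real {x | τ * √(1 + ((c1 : ℝ) - c0) / (b : ℝ) ^ w * (N + 1)) <
      |WS b w (gi b w c0 c1) s N x|} ≤
      ((2 * exp 1 * ((2 * k).factorial : ℝ)) * (w : ℝ) ^ (2 * k) + (N * b ^ w) ^ (2 * k) * Δ) /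
        τ ^ (2 * k) := by
  obtain ⟨hp0, hp1⟩ := gi_frac hb h0 h1
  set p := ((c1 : ℝ) - c0) / (b : ℝ) ^ w with hp
  set V : ℝ := 1 + p * (N + 1) with hV'
  have hV1 : 1 ≤ V := by rw [hV']; have : 0 ≤ p * ((N : ℝ) + 1) := by positivity
                         linarith
  have hV0 : 0 < V := by linarith
  have hsq0 : 0 < √V := Real.sqrt_pos.2 hV0
  have ha : 0 < τ * √V := by positivity
  have hG := gi_le hb h0 h1
  refine (markov_even (measurable_WS b w (gi b w c0 c1) s N) (R := N * 1)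
    (fun x => abs_WS_le hG s N x) k ha).trans ?_
  have m1 := moment_Leb hb hw hG (gi_sum hb h0 h1) hp0 (gi_sq hb h0 h1) s N k
  have m2 := mom_diff (w := w) hb hG s N (2 * k) P Leb hΔ h
  have m3 : ∫ x, WS b w (gi b w c0 c1) s N x ^ (2 * k) ∂P ≤
      (2 * exp 1 * ((2 * k).factorial : ℝ)) * (w : ℝ) ^ (2 * k) * V ^ k +
        (N * b ^ w) ^ (2 * k) * Δ := by
    have := (abs_le.1 m2).2
    rw [mul_one] at this
    linarith
  have hVk : 1 ≤ V ^ k := one_le_pow₀ hV1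
  have e1 : (τ * √V) ^ (2 * k) = τ ^ (2 * k) * V ^ k := by
    rw [mul_pow, pow_mul (√V), Real.sq_sqrt hV0.le]
  rw [e1, div_le_div_iff₀ (by positivity) (by positivity)]
  have h5 : 0 ≤ ((N : ℝ) * b ^ w) ^ (2 * k) * Δ := by positivity
  calc (∫ x, WS b w (gi b w c0 c1) s N x ^ (2 * k) ∂P) * τ ^ (2 * k)
      ≤ ((2 * exp 1 * ((2 * k).factorial : ℝ)) * (w : ℝ) ^ (2 * k) * V ^ k +
        (N * b ^ w) ^ (2 * k) * Δ) * τ ^ (2 * k) := by gcongr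
    _ ≤ ((2 * exp 1 * ((2 * k).factorial : ℝ)) * (w : ℝ) ^ (2 * k) * V ^ k +
        (N * b ^ w) ^ (2 * k) * Δ * V ^ k) * τ ^ (2 * k) :=
        mul_le_mul_of_nonneg_right (add_le_add le_rfl (le_mul_of_one_le_right h5 hVk))
          (by positivity)
    _ = _ := by ring

/-- from the grid to all intervals -/
lemma det_grid (hb : 1 ≤ b) (s N : ℕ) (hN : (N : ℝ) ≤ (b : ℝ) ^ w) (x τ : ℝ) (hτ : 4 ≤ τ)
    (h : ∀ c0 c1 : ℕ, c0 ≤ c1 → c1 ≤ b ^ w →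
      |WS b w (gi b w c0 c1) s N x| ≤ τ * √(1 + ((c1 : ℝ) - c0) / (b : ℝ) ^ w * (N + 1)))
    (u v : ℝ) (hu : 0 ≤ u) (huv : u ≤ v) (hv : v ≤ 1) :
    |(((range N).filter (fun i => u ≤ Int.fract ((b : ℝ) ^ (s + i) * x) ∧
      Int.fract ((b : ℝ) ^ (s + i) * x) < v)).card : ℝ) - N * (v - u)| ≤
        τ ^ 2 * √(1 + N * (v - u)) := by
  have hb' : (0 : ℝ) < b := by exact_mod_cast hb
  have hb1 : (1 : ℝ) ≤ b := by exact_mod_cast hb
  have hbw : (0 : ℝ) < (b : ℝ) ^ w := by positivity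
  have hbw1 : (1 : ℝ) ≤ (b : ℝ) ^ w := one_le_pow₀ hb1
  have hN0 : (0 : ℝ) ≤ N := Nat.cast_nonneg N
  have hNb : (N : ℝ) / (b : ℝ) ^ w ≤ 1 := by rw [div_le_one hbw]; exact hN
  have hNb0 : 0 ≤ (N : ℝ) / (b : ℝ) ^ w := by positivity
  have hib : 1 / (b : ℝ) ^ w ≤ 1 := by rw [div_le_one hbw]; exact hbw1
  set cn : ℝ := (((range N).filter (fun i => u ≤ Int.fract ((b : ℝ) ^ (s + i) * x) ∧
      Int.fract ((b : ℝ) ^ (s + i) * x) < v)).card : ℝ) with hcn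
  have hvu : 0 ≤ v - u := by linarith
  have hX : 0 ≤ N * (v - u) := by positivity
  set X : ℝ := √(1 + N * (v - u)) with hXd
  have hX1 : 1 ≤ X := Real.one_le_sqrt.2 (by linarith)
  -- the bound for the root
  have hroot : ∀ c0 c1 : ℕ, c0 ≤ c1 → ((c1 : ℝ) - c0) / (b : ℝ) ^ w ≤ (v - u) + 2 / (b : ℝ) ^ w →
      √(1 + ((c1 : ℝ) - c0) / (b : ℝ) ^ w * (N + 1)) ≤ 3 * X := by
    intro c0 c1 h0 h1
    have h2 : 1 + ((c1 : ℝ) - c0) / (b : ℝ) ^ w * (N + 1) ≤ 9 * (1 + N * (v - u)) := by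
      calc 1 + ((c1 : ℝ) - c0) / (b : ℝ) ^ w * (N + 1)
          ≤ 1 + ((v - u) + 2 / (b : ℝ) ^ w) * (N + 1) := by gcongr
        _ = 1 + N * (v - u) + (v - u) + 2 * (N / (b : ℝ) ^ w) + 2 * (1 / (b : ℝ) ^ w) := by ring
        _ ≤ 1 + N * (v - u) + 1 + 2 * 1 + 2 * 1 := by gcongr; linarith
        _ ≤ _ := by linarith
    calc √(1 + ((c1 : ℝ) - c0) / (b : ℝ) ^ w * (N + 1)) ≤ √(9 * (1 + N * (v - u))) :=
          Real.sqrt_le_sqrt h2
      _ = 3 * X := by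
          rw [Real.sqrt_mul (by norm_num), show (9 : ℝ) = 3 ^ 2 by norm_num,
            Real.sqrt_sq (by norm_num)]
  have hτ2 : 2 + τ * (3 * X) ≤ τ ^ 2 * X := by
    have h1 : 4 ≤ τ ^ 2 - 3 * τ := by nlinarith
    have h2 : 4 * X ≤ (τ ^ 2 - 3 * τ) * X := mul_le_mul_of_nonneg_right h1 (by linarith)
    nlinarith
  rw [abs_le]
  constructor
  · -- lower bound
    set c0 : ℕ := ⌈u * (b : ℝ) ^ w⌉₊ with hc0
    set c1 : ℕ := ⌊v * (b : ℝ) ^ w⌋₊ with hc1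
    have g0 : u * (b : ℝ) ^ w ≤ c0 := Nat.le_ceil _
    have g1 : (c0 : ℝ) < u * (b : ℝ) ^ w + 1 := Nat.ceil_lt_add_one (by positivity)
    have g2 : (c1 : ℝ) ≤ v * (b : ℝ) ^ w := Nat.floor_le (by have := hu.trans huv; positivity)
    have g3 : v * (b : ℝ) ^ w < c1 + 1 := Nat.lt_floor_add_one _
    rcases le_or_gt c0 c1 with hle | hgt
    · have hc1' : c1 ≤ b ^ w := by
        have : (c1 : ℝ) ≤ (b : ℝ) ^ w := g2.trans (by nlinarith)
        exact_mod_cast this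
      have h3 := h c0 c1 hle hc1'
      rw [WS_gi hb] at h3
      have h4 : ((c1 : ℝ) - c0) / (b : ℝ) ^ w ≤ (v - u) + 2 / (b : ℝ) ^ w := by
        rw [div_le_iff₀ hbw, add_mul, div_mul_cancel₀ _ hbw.ne']
        nlinarith
      have h5 : (v - u) - 2 / (b : ℝ) ^ w ≤ ((c1 : ℝ) - c0) / (b : ℝ) ^ w := by
        rw [le_div_iff₀ hbw, sub_mul, div_mul_cancel₀ _ hbw.ne']
        nlinarith
      have h6 := hroot c0 c1 hle h4
      have h7 : (((range N).filter (fun i => (c0 : ℝ) / (b : ℝ) ^ w ≤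
          Int.fract ((b : ℝ) ^ (s + i) * x) ∧
          Int.fract ((b : ℝ) ^ (s + i) * x) < (c1 : ℝ) / (b : ℝ) ^ w)).card : ℝ) ≤ cn := by
        rw [hcn]
        refine Nat.cast_le.2 (Finset.card_le_card fun i hi => ?_)
        rw [mem_filter] at hi ⊢
        refine ⟨hi.1, le_trans ?_ hi.2.1, lt_of_lt_of_le hi.2.2 ?_⟩
        · rw [le_div_iff₀ hbw]; exact g0
        · rw [div_le_iff₀ hbw]; exact g2
      have h8 := (abs_le.1 h3).1
      have h9 : N * ((v - u) - 2 / (b : ℝ) ^ w) ≤ N * (((c1 : ℝ) - c0) / (b : ℝ) ^ w) :=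
        mul_le_mul_of_nonneg_left h5 hN0
      have h10 : N * ((v - u) - 2 / (b : ℝ) ^ w) = N * (v - u) - 2 * (N / (b : ℝ) ^ w) := by ring
      have h11 : τ * √(1 + ((c1 : ℝ) - c0) / (b : ℝ) ^ w * (N + 1)) ≤ τ * (3 * X) :=
        mul_le_mul_of_nonneg_left h6 (by linarith)
      linarith
    · have hcn0 : 0 ≤ cn := Nat.cast_nonneg _
      have h3 : (c1 : ℝ) + 1 ≤ c0 := by exact_mod_cast hgt
      have h4 : (v - u) * (b : ℝ) ^ w ≤ 2 := by nlinarith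
      have h5 : v - u ≤ 2 / (b : ℝ) ^ w := by rw [le_div_iff₀ hbw]; exact h4
      have h6 : N * (v - u) ≤ 2 * (N / (b : ℝ) ^ w) := by
        calc N * (v - u) ≤ N * (2 / (b : ℝ) ^ w) := mul_le_mul_of_nonneg_left h5 hN0
          _ = _ := by ring
      nlinarith
  · -- upper bound
    set c0 : ℕ := ⌊u * (b : ℝ) ^ w⌋₊ with hc0
    set c1 : ℕ := ⌈v * (b : ℝ) ^ w⌉₊ with hc1
    have g0 : (c0 : ℝ) ≤ u * (b : ℝ) ^ w := Nat.floor_le (by positivity)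
    have g1 : u * (b : ℝ) ^ w < c0 + 1 := Nat.lt_floor_add_one _
    have g2 : v * (b : ℝ) ^ w ≤ c1 := Nat.le_ceil _
    have g3 : (c1 : ℝ) < v * (b : ℝ) ^ w + 1 :=
      Nat.ceil_lt_add_one (by have := hu.trans huv; positivity)
    have hle : c0 ≤ c1 := by
      have : (c0 : ℝ) ≤ c1 := g0.trans ((by nlinarith : u * (b : ℝ) ^ w ≤ v * (b : ℝ) ^ w).trans g2)
      exact_mod_cast this
    have hc1' : c1 ≤ b ^ w := by
      rw [hc1]
      apply Nat.ceil_le.2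
      push_cast
      nlinarith
    have h3 := h c0 c1 hle hc1'
    rw [WS_gi hb] at h3
    have h4 : ((c1 : ℝ) - c0) / (b : ℝ) ^ w ≤ (v - u) + 2 / (b : ℝ) ^ w := by
      rw [div_le_iff₀ hbw, add_mul, div_mul_cancel₀ _ hbw.ne']
      nlinarith
    have h6 := hroot c0 c1 hle h4
    have h7 : cn ≤ (((range N).filter (fun i => (c0 : ℝ) / (b : ℝ) ^ w ≤
        Int.fract ((b : ℝ) ^ (s + i) * x) ∧
        Int.fract ((b : ℝ) ^ (s + i) * x) < (c1 : ℝ) / (b : ℝ) ^ w)).card : ℝ) := by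
      rw [hcn]
      refine Nat.cast_le.2 (Finset.card_le_card fun i hi => ?_)
      rw [mem_filter] at hi ⊢
      refine ⟨hi.1, le_trans ?_ hi.2.1, lt_of_lt_of_le hi.2.2 ?_⟩
      · rw [div_le_iff₀ hbw]; exact g0
      · rw [le_div_iff₀ hbw]; exact g2
    have h8 := (abs_le.1 h3).2
    have h9 : N * (((c1 : ℝ) - c0) / (b : ℝ) ^ w) ≤ N * ((v - u) + 2 / (b : ℝ) ^ w) :=
      mul_le_mul_of_nonneg_left h4 hN0
    have h10 : N * ((v - u) + 2 / (b : ℝ) ^ w) = N * (v - u) + 2 * (N / (b : ℝ) ^ w) := by ring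
    have h11 : τ * √(1 + ((c1 : ℝ) - c0) / (b : ℝ) ^ w * (N + 1)) ≤ τ * (3 * X) :=
      mul_le_mul_of_nonneg_left h6 (by linarith)
    linarith

end Pool.Agent.W5h30.SR
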