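import Pool.Agent.W5h30.SR.Ev
import Pool.Agent.Y933.KD.Fam

/-!
# Square root bounds for the number of visits, in families with small Fourier coefficients
-/

set_option autoImplicit false

namespace Pool.Agent.W5h30.SR

open Finset Real MeasureTheory Filter Topology
open Pool.Agent.Y933.KD

/-- in base `b`, for all windows of places up to `L` and all intervals, the number of visits differs
from the expected number by at most `T` times the square root of one plus the expected number -/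
def Sq (b : ℕ) (L T x : ℝ) : Prop :=
  ∀ s N : ℕ, (s : ℝ) + N ≤ L → ∀ u v : ℝ, 0 ≤ u → u ≤ v → v ≤ 1 →
    |(((range N).filter (fun i => u ≤ Int.fract ((b : ℝ) ^ (s + i) * x) ∧
      Int.fract ((b : ℝ) ^ (s + i) * x) < v)).card : ℝ) - N * (v - u)| ≤ T * √(1 + N * (v - u))

lemma ev_pow_exp (C δ : ℝ) (n : ℕ) (hδ : 0 < δ) :
    ∀ᶠ t : ℝ in atTop, C * t ^ n * exp (-(δ * t)) ≤ 1 := by
  have h1 := Real.tendsto_pow_mul_exp_neg_atTop_nhds_zero n
  have h2 : Tendsto (fun t : ℝ => δ * t) atTop atTop := tendsto_id.const_mul_atTop hδ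
  have h3 := (h1.comp h2).const_mul (C / δ ^ n)
  rw [mul_zero] at h3
  filter_upwards [h3.eventually_le_const one_pos] with t ht
  refine le_trans (le_of_eq ?_) ht
  simp only [Function.comp_apply]
  rw [mul_pow]
  field_simp

theorem sqrt_family {b : ℕ} (hb : 2 ≤ b) {A ε κ : ℝ} (hε : 0 < ε)
    {S : ℕ → Set (Measure ℝ)} (hS : ∀ M, 1 ≤ M → ∀ P ∈ S M, IsProbabilityMeasure P)
    (hG : ∀ k, Good b k A S) :
    ∃ M0 : ℕ, ∀ M : ℕ, M0 ≤ M → ∃ U : Set ℝ, MeasurableSet U ∧
      (∀ P ∈ S M, P.real U ≤ (log M) ^ (-κ)) ∧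
      ∀ x, x ∉ U → Sq b (A * log M) ((log M) ^ ε) x := by
  classical
  have hbR : (2 : ℝ) ≤ b := by exact_mod_cast hb
  have hb1 : 1 ≤ b := by omega
  set A1 : ℝ := max A 1 with hA1
  have hA11 : 1 ≤ A1 := le_max_right _ _
  have hAA1 : A ≤ A1 := le_max_left _ _
  set k : ℕ := ⌈2 * (κ + 5) / ε⌉₊ + 1 with hk
  have hkε : κ + 5 ≤ k * (ε / 2) := by
    have h1 : 2 * (κ + 5) / ε ≤ k := by
      rw [hk]; push_cast
      linarith [Nat.le_ceil (2 * (κ + 5) / ε)]
    rw [div_le_iff₀ hε] at h1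
    linarith
  obtain ⟨δ, hδ, C, hC⟩ := power hS (hG (2 * k))
  set D : ℝ := 2 * b ^ 2 * A1 with hD
  have hD1 : 1 ≤ D := by
    have : (1 : ℝ) ≤ b ^ 2 := one_le_pow₀ (by linarith)
    nlinarith
  set F : ℝ := 2 * exp 1 * ((2 * k).factorial : ℝ) with hF
  have hF0 : 0 < F := by positivity
  set W : ℝ := D ^ (ε / 16) / (ε / 16) / log 2 with hW
  have hlog2 : 0 < log 2 := Real.log_pos (by norm_num)
  -- large `t`
  have ev : ∀ᶠ t : ℝ in atTop, 1 ≤ t ∧ W * t ^ (ε / 16) ≤ t ^ (ε / 8) ∧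
      (D ^ 2 * t ^ 2) ^ (2 * k) * |C| * exp (-(δ * t)) ≤ 1 ∧ 4 ≤ t ^ (ε / 2) ∧
      4 * D ^ 4 * (F + 1) ≤ t := by
    refine (eventually_ge_atTop 1).and ?_
    have h1 : ∀ᶠ t : ℝ in atTop, W ≤ t ^ (ε / 16) :=
      (tendsto_rpow_atTop (by positivity : 0 < ε / 16)).eventually_ge_atTop _
    have h2 := ev_pow_exp ((D ^ 2) ^ (2 * k) * |C|) δ (2 * (2 * k)) hδ
    have h3 : ∀ᶠ t : ℝ in atTop, 4 ≤ t ^ (ε / 2) :=
      (tendsto_rpow_atTop (by positivity : 0 < ε / 2)).eventually_ge_atTop _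
    filter_upwards [h1, h2, h3, eventually_ge_atTop (4 * D ^ 4 * (F + 1)), eventually_gt_atTop 0]
      with t g1 g2 g3 g4 g5
    refine ⟨?_, ?_, g3, g4⟩
    · calc W * t ^ (ε / 16) ≤ t ^ (ε / 16) * t ^ (ε / 16) := by gcongr
        _ = t ^ (ε / 8) := by rw [← Real.rpow_add g5]; congr 1; ring
    · refine le_trans (le_of_eq ?_) g2
      rw [mul_pow, ← pow_mul t]
      ring
  have hlog : Tendsto (fun M : ℕ => log (M : ℝ)) atTop atTop :=
    Real.tendsto_log_atTop.comp tendsto_natCast_atTop_atTop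
  obtain ⟨M1, hM1⟩ := eventually_atTop.1 (hlog.eventually ev)
  refine ⟨max M1 1, fun M hM => ?_⟩
  obtain ⟨ht1, hWt, hCt, hτ4, hDt⟩ := hM1 M (le_of_max_le_left hM)
  have hM1' : 1 ≤ M := le_of_max_le_right hM
  have hMp : (0 : ℝ) < M := by exact_mod_cast hM1'
  set t : ℝ := log M with ht
  have ht0 : 0 < t := by linarith
  set n1 : ℕ := ⌊A1 * t⌋₊ + 1 with hn1
  have hA1t : 1 ≤ A1 * t := by nlinarith
  have hn1a : (n1 : ℝ) ≤ 2 * A1 * t := by
    rw [hn1]; push_cast
    have := Nat.floor_le (by linarith : 0 ≤ A1 * t)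
    linarith
  have hn1b : A1 * t < n1 := by rw [hn1]; push_cast; exact Nat.lt_floor_add_one _
  have hn12 : 1 < n1 := by
    have : (1 : ℝ) < n1 := by linarith
    exact_mod_cast this
  set w : ℕ := Nat.clog b n1 + 1 with hw
  have hw1 : 1 ≤ w := by omega
  have hbw : (n1 : ℝ) ≤ (b : ℝ) ^ w := by
    have h1 : n1 ≤ b ^ Nat.clog b n1 := Nat.le_pow_clog (by omega) _
    have h2 : b ^ Nat.clog b n1 ≤ b ^ w := Nat.pow_le_pow_right (by omega) (by omega)
    exact_mod_cast h1.trans h2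
  have hbw2 : (b : ℝ) ^ w ≤ D * t := by
    have h1 : b ^ (Nat.clog b n1).pred < n1 := Nat.pow_pred_clog_lt_self (by omega) hn12
    have h3 : 0 < Nat.clog b n1 := Nat.clog_pos (by omega) (by omega)
    have h2 : b ^ w = b ^ 2 * b ^ (Nat.clog b n1).pred := by
      rw [← pow_add]
      congr 1
      rw [Nat.pred_eq_sub_one]
      omega
    have h4 : b ^ w ≤ b ^ 2 * n1 := by
      rw [h2]
      exact Nat.mul_le_mul_left _ h1.le
    calc (b : ℝ) ^ w ≤ (b : ℝ) ^ 2 * n1 := by exact_mod_cast h4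
      _ ≤ (b : ℝ) ^ 2 * (2 * A1 * t) := by gcongr
      _ = D * t := by rw [hD]; ring
  have hwt : (w : ℝ) ≤ t ^ (ε / 8) := by
    have h1 : (2 : ℝ) ^ w ≤ D * t := (pow_le_pow_left₀ (by norm_num) hbR w).trans hbw2
    have h2 := Real.log_le_log (by positivity) h1
    rw [Real.log_pow] at h2
    have h3 := Real.log_le_rpow_div (x := D * t) (ε := ε / 16) (by positivity) (by positivity)
    have h4 : (D * t) ^ (ε / 16) = D ^ (ε / 16) * t ^ (ε / 16) :=
      Real.mul_rpow (by linarith) ht0.le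
    calc (w : ℝ) ≤ (D * t) ^ (ε / 16) / (ε / 16) / log 2 := by
          rw [le_div_iff₀ hlog2]; linarith
      _ = W * t ^ (ε / 16) := by rw [h4, hW]; ring
      _ ≤ t ^ (ε / 8) := hWt
  set τ : ℝ := t ^ (ε / 2) with hτ
  have hτ0 : 0 < τ := by linarith
  have hτ2 : τ ^ 2 = t ^ ε := by
    rw [hτ, ← Real.rpow_natCast, ← Real.rpow_mul ht0.le]
    congr 1
    push_cast
    ring
  -- the index set and the exceptional set
  set I : Finset ((ℕ × ℕ) × (ℕ × ℕ)) := ((range n1 ×ˢ range n1) ×ˢ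
    (range (b ^ w + 1) ×ˢ range (b ^ w + 1))).filter (fun q => q.2.1 ≤ q.2.2 ∧
      (q.1.1 : ℝ) + q.1.2 ≤ A * t) with hI
  set E : (ℕ × ℕ) × (ℕ × ℕ) → Set ℝ := fun q =>
    {x | τ * √(1 + ((q.2.2 : ℝ) - q.2.1) / (b : ℝ) ^ w * (q.1.2 + 1)) <
      |WS b w (gi b w q.2.1 q.2.2) q.1.1 q.1.2 x|} with hE
  have hEm : ∀ q, MeasurableSet (E q) := fun q =>
    measurableSet_lt measurable_const (measurable_WS _ _ _ _ _).abs
  refine ⟨⋃ q ∈ I, E q, MeasurableSet.biUnion (Finset.countable_toSet I) fun q _ => hEm q, ?_, ?_⟩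
  · intro P hP
    have := hS M hM1' P hP
    have hΔ : 0 ≤ |C| * (M : ℝ) ^ (-δ) := by positivity
    have hMδ : (M : ℝ) ^ (-δ) = exp (-(δ * t)) := by
      rw [Real.rpow_def_of_pos hMp]
      congr 1
      rw [← ht]
      ring
    have hev : ∀ q ∈ I, P.real (E q) ≤ (F + 1) * t ^ (-(κ + 5)) := by
      intro q hq
      rw [hI, mem_filter, mem_product, mem_product, mem_product, mem_range, mem_range, mem_range,
        mem_range] at hq
      obtain ⟨⟨⟨q1, q2⟩, q3, q4⟩, q5, q6⟩ := hq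
      have key := event_tail (w := w) hb1 hw1 q5 (by omega) q.1.1 q.1.2 k P hΔ (by
        intro n u v hn hu hv
        refine (hC M hM1' P hP (fun _ => b) n (fun _ => ⟨hb1, le_rfl⟩) (fun i => ?_) u v hu
          hv).trans ?_
        · have h1 : (n i : ℝ) ≤ q.1.1 + q.1.2 := by exact_mod_cast hn i
          exact h1.trans q6
        · gcongr
          exact le_abs_self C) hτ0
      refine key.trans ?_
      have hN : (q.1.2 : ℝ) ≤ D * t := by
        have h1 : (q.1.2 : ℝ) ≤ n1 := by exact_mod_cast q2.le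
        refine h1.trans (hn1a.trans ?_)
        rw [hD]
        have : (1 : ℝ) ≤ b ^ 2 := one_le_pow₀ (by linarith)
        have h2 : 0 ≤ 2 * A1 * t := by positivity
        nlinarith
      have h1 : ((q.1.2 : ℝ) * b ^ w) ^ (2 * k) * (|C| * (M : ℝ) ^ (-δ)) ≤ 1 := by
        rw [hMδ]
        refine le_trans ?_ hCt
        rw [← mul_assoc]
        have h3 : (q.1.2 : ℝ) * b ^ w ≤ D ^ 2 * t ^ 2 := by
          calc (q.1.2 : ℝ) * b ^ w ≤ (D * t) * (D * t) := by gcongr
            _ = D ^ 2 * t ^ 2 := by ring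
        have h4 : ((q.1.2 : ℝ) * b ^ w) ^ (2 * k) ≤ (D ^ 2 * t ^ 2) ^ (2 * k) :=
          pow_le_pow_left₀ (by positivity) h3 _
        exact mul_le_mul_of_nonneg_right (mul_le_mul_of_nonneg_right h4 (abs_nonneg _))
          (exp_pos _).le
      have hw2 : (w : ℝ) ^ (2 * k) ≤ t ^ (k * (ε / 4)) := by
        calc (w : ℝ) ^ (2 * k) ≤ (t ^ (ε / 8)) ^ (2 * k) := by gcongr
          _ = t ^ (k * (ε / 4)) := by
              rw [← Real.rpow_natCast, ← Real.rpow_mul ht0.le]
              congr 1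
              push_cast
              ring
      have hτk : τ ^ (2 * k) = t ^ (k * ε) := by
        rw [hτ, ← Real.rpow_natCast, ← Real.rpow_mul ht0.le]
        congr 1
        push_cast
        ring
      rw [hτk, div_le_iff₀ (by positivity)]
      have h2 : (1 : ℝ) ≤ t ^ (k * (ε / 4)) := Real.one_le_rpow ht1 (by positivity)
      calc F * (w : ℝ) ^ (2 * k) + ((q.1.2 : ℝ) * b ^ w) ^ (2 * k) * (|C| * (M : ℝ) ^ (-δ))
          ≤ F * t ^ (k * (ε / 4)) + 1 * t ^ (k * (ε / 4)) := by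
            rw [one_mul]
            gcongr
            exact h1.trans h2
        _ = (F + 1) * t ^ (k * (ε / 4)) := by ring
        _ ≤ (F + 1) * t ^ (-(κ + 5) + k * ε) := by
            have h3 : t ^ (k * (ε / 4)) ≤ t ^ (-(κ + 5) + k * ε) := by
              apply Real.rpow_le_rpow_of_exponent_le ht1
              have : 0 ≤ (k : ℝ) * ε := by positivity
              linarith
            exact mul_le_mul_of_nonneg_left h3 (by linarith)
        _ = _ := by rw [Real.rpow_add ht0]; ring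
    calc P.real (⋃ q ∈ I, E q) ≤ ∑ q ∈ I, P.real (E q) := measureReal_biUnion_finset_le _ _
      _ ≤ ∑ _q ∈ I, (F + 1) * t ^ (-(κ + 5)) := sum_le_sum hev
      _ = I.card * ((F + 1) * t ^ (-(κ + 5))) := by rw [sum_const, nsmul_eq_mul]
      _ ≤ (4 * D ^ 4 * t ^ 4) * ((F + 1) * t ^ (-(κ + 5))) := by
          gcongr
          have h1 : I.card ≤ (n1 * n1) * ((b ^ w + 1) * (b ^ w + 1)) := by
            refine (card_filter_le _ _).trans ?_
            rw [card_product, card_product, card_product, card_range, card_range]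
          have hn1D : (n1 : ℝ) ≤ D * t := hbw.trans hbw2
          have hbw3 : (b : ℝ) ^ w + 1 ≤ 2 * (D * t) := by
            have : 1 ≤ D * t := by nlinarith
            linarith
          calc (I.card : ℝ) ≤ (n1 * n1) * (((b : ℝ) ^ w + 1) * ((b : ℝ) ^ w + 1)) := by
                exact_mod_cast h1
            _ ≤ ((D * t) * (D * t)) * ((2 * (D * t)) * (2 * (D * t))) := by gcongr
            _ = _ := by ring
      _ = (4 * D ^ 4 * (F + 1)) * (t ^ (4 : ℝ) * t ^ (-(κ + 5))) := by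
          have : t ^ (4 : ℝ) = t ^ 4 := by
            rw [show (4 : ℝ) = ((4 : ℕ) : ℝ) by norm_num, Real.rpow_natCast]
          rw [this]
          ring
      _ ≤ t * (t ^ (4 : ℝ) * t ^ (-(κ + 5))) := by gcongr
      _ = t ^ (-κ) := by
          rw [← Real.rpow_add ht0]
          nth_rw 1 [← Real.rpow_one t]
          rw [← Real.rpow_add ht0]
          congr 1
          ring
  · intro x hx s N hsN u v hu huv hv
    have hsN1 : (s : ℝ) + N ≤ A1 * t := hsN.trans (by gcongr)
    have hs0 : (0 : ℝ) ≤ s := Nat.cast_nonneg _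
    have hN0 : (0 : ℝ) ≤ N := Nat.cast_nonneg _
    have hsn : s < n1 := by
      have : (s : ℝ) < n1 := by linarith
      exact_mod_cast this
    have hNn : N < n1 := by
      have : (N : ℝ) < n1 := by linarith
      exact_mod_cast this
    have key := det_grid (w := w) hb1 s N (by
      have : (N : ℝ) ≤ n1 := by exact_mod_cast hNn.le
      exact this.trans hbw) x τ hτ4 (by
        intro c0 c1 h0 h1
        by_contra hcon
        push Not at hcon
        apply hx
        simp only [Set.mem_iUnion]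
        refine ⟨((s, N), (c0, c1)), ?_, hcon⟩
        rw [hI, mem_filter, mem_product, mem_product, mem_product, mem_range, mem_range, mem_range,
          mem_range]
        refine ⟨⟨⟨hsn, hNn⟩, ?_, ?_⟩, h0, hsN⟩
        · show c0 < b ^ w + 1
          omega
        · show c1 < b ^ w + 1
          omega) u v hu huv hv
    rw [hτ2] at key
    exact key

end Pool.Agent.W5h30.SR
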