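import Pool.Agent.Y933.KD.Clt

/-!
# High moments of the word sums of a random real number, with the variance
-/

set_option autoImplicit false

namespace Pool.Agent.W5h30.SR

open Finset Real MeasureTheory Filter Topology
open Pool.Agent.Y933.KD

variable {b w : ℕ} {G : ℕ → ℝ} {p : ℝ}

lemma int_sq (hb : 1 ≤ b) (hV : (∑ c ∈ range (b ^ w), G c ^ 2) / (b : ℝ) ^ w ≤ p) :
    ∫ x, Xw b w G 0 x ^ 2 ∂Leb ≤ p := by
  have := int_word hb w 0 (fun c => G c ^ 2)
  unfold Xw
  rw [this]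
  exact hV

/-- exponential moment of one term -/
lemma exp_one_var (hb : 1 ≤ b) (hG : ∀ c, |G c| ≤ 1) (hG0 : ∑ c ∈ range (b ^ w), G c = 0)
    (hV : (∑ c ∈ range (b ^ w), G c ^ 2) / (b : ℝ) ^ w ≤ p) {s : ℝ} (hs : |s| ≤ 1) :
    ∫ x, exp (s * Xw b w G 0 x) ∂Leb ≤ exp (p * s ^ 2) := by
  have hX : ∀ x, |Xw b w G 0 x| ≤ 1 := fun x => hG _
  have hm := measurable_Xw b w G 0
  have i1 : Integrable (fun x => exp (s * Xw b w G 0 x)) Leb := by
    refine integrable_of_bdd (Real.measurable_exp.comp (hm.const_mul s)) (R := exp 1) fun x => ?_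
    rw [abs_of_pos (exp_pos _)]
    apply exp_le_exp.2
    refine (le_abs_self _).trans ?_
    rw [abs_mul]
    calc |s| * |Xw b w G 0 x| ≤ 1 * 1 := by gcongr; exact hX x
      _ = 1 := one_mul 1
  have i2 : Integrable (fun x => Xw b w G 0 x) Leb := integrable_of_bdd hm (R := 1) hX
  have i3 : Integrable (fun x => Xw b w G 0 x ^ 2) Leb := by
    refine integrable_of_bdd (hm.pow_const 2) (R := 1) fun x => ?_
    rw [abs_pow]
    exact pow_le_one₀ (abs_nonneg _) (hX x)
  have i4 : Integrable (fun x => 1 + s * Xw b w G 0 x + s ^ 2 * Xw b w G 0 x ^ 2) Leb :=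
    ((integrable_const 1).add (i2.const_mul s)).add (i3.const_mul (s ^ 2))
  have h1 : ∫ x, exp (s * Xw b w G 0 x) ∂Leb ≤
      ∫ x, (1 + s * Xw b w G 0 x + s ^ 2 * Xw b w G 0 x ^ 2) ∂Leb := by
    refine integral_mono i1 i4 fun x => ?_
    have h2 : |s * Xw b w G 0 x| ≤ 1 := by
      rw [abs_mul]
      calc |s| * |Xw b w G 0 x| ≤ 1 * 1 := by gcongr; exact hX x
        _ = 1 := one_mul 1
    have h3 := (abs_le.1 (Real.abs_exp_sub_one_sub_id_le h2)).2
    show exp (s * Xw b w G 0 x) ≤ 1 + s * Xw b w G 0 x + s ^ 2 * Xw b w G 0 x ^ 2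
    nlinarith
  have h4 : ∫ x, (1 + s * Xw b w G 0 x + s ^ 2 * Xw b w G 0 x ^ 2) ∂Leb =
      1 + s ^ 2 * ∫ x, Xw b w G 0 x ^ 2 ∂Leb := by
    have i5 : Integrable (fun x => 1 + s * Xw b w G 0 x) Leb :=
      (integrable_const 1).add (i2.const_mul s)
    rw [integral_add i5 (i3.const_mul (s ^ 2)),
      integral_add (integrable_const 1) (i2.const_mul s), integral_const_mul, integral_const_mul,
      int_Xw hb hG0 0]
    simp
  rw [h4] at h1
  have h5 := int_sq hb hV
  have h6 : 0 ≤ s ^ 2 := sq_nonneg s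
  calc ∫ x, exp (s * Xw b w G 0 x) ∂Leb ≤ 1 + s ^ 2 * ∫ x, Xw b w G 0 x ^ 2 ∂Leb := h1
    _ ≤ p * s ^ 2 + 1 := by nlinarith
    _ ≤ exp (p * s ^ 2) := Real.add_one_le_exp _

/-- exponential moment along a progression with difference `w` -/
lemma exp_prog_var (hb : 1 ≤ b) (hG : ∀ c, |G c| ≤ 1) (hG0 : ∑ c ∈ range (b ^ w), G c = 0)
    (hV : (∑ c ∈ range (b ^ w), G c ^ 2) / (b : ℝ) ^ w ≤ p) {s : ℝ} (hs : |s| ≤ 1) (r J : ℕ) :
    ∫ x, exp (s * ∑ j ∈ range J, Xw b w G (r + w * j) x) ∂Leb ≤ exp (p * s ^ 2) ^ J := by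
  set A : ℝ → ℝ := fun x => exp (s * Xw b w G 0 x) with hA
  have hAm : Measurable A := Real.measurable_exp.comp ((measurable_Xw _ _ _ _).const_mul s)
  have hAb : ∀ x, |A x| ≤ exp (|s| * 1) := by
    intro x
    rw [hA, abs_of_pos (exp_pos _)]
    apply exp_le_exp.2
    calc s * Xw b w G 0 x ≤ |s * Xw b w G 0 x| := le_abs_self _
      _ = |s| * |Xw b w G 0 x| := abs_mul _ _
      _ ≤ |s| * 1 := by gcongr; exact hG _
  have h1 : ∀ x, exp (s * ∑ j ∈ range J, Xw b w G (r + w * j) x) =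
      (fun y => ∏ j ∈ range J, A (Tb b (w * j) y)) (Tb b r x) := by
    intro x
    simp only [hA]
    rw [← Real.exp_sum, mul_sum]
    congr 1
    refine sum_congr rfl fun j _ => ?_
    rw [Xw_add, ← Xw_add b w G (w * j) 0, Nat.add_zero]
  simp only [h1]
  rw [invariance_real hb (h := fun y => ∏ j ∈ range J, A (Tb b (w * j) y))
    (Finset.measurable_fun_prod _ fun j _ => hAm.comp (measurable_Tb _ _))
    (C := exp (|s| * 1) ^ J)]
  · rw [block_prod_real hb ((dep_Xw (G := G) hb (n := 0) (p := w) (by omega)).comp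
      (fun y => exp (s * y))) hAm hAb]
    have h2 : 0 ≤ ∫ x, A x ∂Leb := integral_nonneg fun x => (exp_pos _).le
    exact pow_le_pow_left₀ h2 (exp_one_var hb hG hG0 hV hs) J
  · intro x
    rw [Finset.abs_prod]
    calc ∏ j ∈ range J, |A (Tb b (w * j) x)| ≤ ∏ _j ∈ range J, exp (|s| * 1) :=
          prod_le_prod (fun _ _ => abs_nonneg _) fun j _ => hAb _
      _ = exp (|s| * 1) ^ J := by rw [prod_const, card_range]

/-- splitting into residue classes -/
lemma sum_classes {w : ℕ} (hw : 1 ≤ w) (N : ℕ) (f : ℕ → ℝ) :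
    ∑ n ∈ range N, f n = ∑ r ∈ range w, ∑ j ∈ range ((N + w - 1 - r) / w), f (r + w * j) := by
  rw [Finset.sum_sigma']
  refine Finset.sum_nbij' (fun n => (⟨n % w, n / w⟩ : Σ _ : ℕ, ℕ)) (fun q => q.1 + w * q.2)
    ?_ ?_ ?_ ?_ ?_
  · intro n hn
    rw [mem_range] at hn
    simp only [mem_sigma, mem_range]
    have h1 : n % w < w := Nat.mod_lt _ (by omega)
    refine ⟨h1, ?_⟩
    rw [Nat.lt_iff_add_one_le, Nat.le_div_iff_mul_le (by omega)]
    have h2 := Nat.mod_add_div n w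
    have h3 : (n / w + 1) * w = w * (n / w) + w := by ring
    omega
  · intro q hq
    simp only [mem_sigma, mem_range] at hq ⊢
    obtain ⟨h1, h2⟩ := hq
    rw [Nat.lt_iff_add_one_le, Nat.le_div_iff_mul_le (by omega)] at h2
    have h3 : (q.2 + 1) * w = w * q.2 + w := by ring
    omega
  · intro n _
    exact Nat.mod_add_div n w
  · intro q hq
    simp only [mem_sigma, mem_range] at hq
    have h1 : (q.1 + w * q.2) % w = q.1 := by
      rw [Nat.add_mul_mod_self_left, Nat.mod_eq_of_lt hq.1]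
    have h2 : (q.1 + w * q.2) / w = q.2 := by
      rw [Nat.add_mul_div_left _ _ (by omega), Nat.div_eq_of_lt hq.1, zero_add]
    simp only [h1, h2]
  · intro n _
    simp only [Nat.mod_add_div]

/-- exponential moment of the whole sum -/
lemma exp_all (hb : 1 ≤ b) (hw : 1 ≤ w) (hG : ∀ c, |G c| ≤ 1) (hG0 : ∑ c ∈ range (b ^ w), G c = 0)
    (hp : 0 ≤ p) (hV : (∑ c ∈ range (b ^ w), G c ^ 2) / (b : ℝ) ^ w ≤ p) {s : ℝ} (hs : |s| ≤ 1)
    (N : ℕ) :
    ∫ x, exp (s / w * ∑ n ∈ range N, Xw b w G n x) ∂Leb ≤ exp (p * s ^ 2 * (N + 1)) := by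
  have hw0 : (0 : ℝ) < w := by exact_mod_cast hw
  set J : ℕ → ℕ := fun r => (N + w - 1 - r) / w with hJ
  set S : ℕ → ℝ → ℝ := fun r x => ∑ j ∈ range (J r), Xw b w G (r + w * j) x with hS
  have hSm : ∀ r, Measurable (S r) := fun r =>
    Finset.measurable_fun_sum _ fun j _ => measurable_Xw _ _ _ _
  have hSb : ∀ r x, |S r x| ≤ J r := by
    intro r x
    refine (Finset.abs_sum_le_sum_abs _ _).trans ?_
    calc ∑ j ∈ range (J r), |Xw b w G (r + w * j) x| ≤ ∑ _j ∈ range (J r), (1 : ℝ) :=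
          sum_le_sum fun j _ => hG _
      _ = J r := by simp
  have hint : ∀ r, Integrable (fun x => exp (s * S r x)) Leb := by
    intro r
    refine integrable_of_bdd (Real.measurable_exp.comp ((hSm r).const_mul s))
      (R := exp (|s| * J r)) fun x => ?_
    rw [abs_of_pos (exp_pos _)]
    apply exp_le_exp.2
    refine (le_abs_self _).trans ?_
    rw [abs_mul]
    gcongr
    exact hSb r x
  have hall : ∀ x, ∑ n ∈ range N, Xw b w G n x = ∑ r ∈ range w, S r x := fun x =>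
    sum_classes hw N _
  have hconv : ∀ x, exp (s / w * ∑ n ∈ range N, Xw b w G n x) ≤
      ∑ r ∈ range w, (1 / (w : ℝ)) * exp (s * S r x) := by
    intro x
    have h1 := convexOn_exp.map_sum_le (t := range w) (w := fun _ => 1 / (w : ℝ))
      (p := fun r => s * S r x) (fun _ _ => by positivity) (by
        rw [sum_const, card_range, nsmul_eq_mul]
        field_simp) (fun _ _ => Set.mem_univ _)
    simp only [smul_eq_mul] at h1
    refine le_trans (le_of_eq ?_) h1
    congr 1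
    rw [hall, mul_sum]
    refine sum_congr rfl fun r _ => ?_
    ring
  have i1 : Integrable (fun x => exp (s / w * ∑ n ∈ range N, Xw b w G n x)) Leb := by
    refine integrable_of_bdd (Real.measurable_exp.comp
      ((Finset.measurable_fun_sum _ fun j _ => measurable_Xw _ _ _ _).const_mul _))
      (R := exp (|s / w| * N)) fun x => ?_
    rw [abs_of_pos (exp_pos _)]
    apply exp_le_exp.2
    refine (le_abs_self _).trans ?_
    rw [abs_mul]
    gcongr
    refine (Finset.abs_sum_le_sum_abs _ _).trans ?_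
    calc ∑ j ∈ range N, |Xw b w G j x| ≤ ∑ _j ∈ range N, (1 : ℝ) :=
          sum_le_sum fun j _ => hG _
      _ = N := by simp
  calc ∫ x, exp (s / w * ∑ n ∈ range N, Xw b w G n x) ∂Leb
      ≤ ∫ x, ∑ r ∈ range w, (1 / (w : ℝ)) * exp (s * S r x) ∂Leb :=
        integral_mono i1 (integrable_finsetSum _ fun r _ => (hint r).const_mul _) hconv
    _ = ∑ r ∈ range w, (1 / (w : ℝ)) * ∫ x, exp (s * S r x) ∂Leb := by
        rw [integral_finsetSum _ fun r _ => (hint r).const_mul _]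
        exact sum_congr rfl fun r _ => integral_const_mul _ _
    _ ≤ ∑ _r ∈ range w, (1 / (w : ℝ)) * exp (p * s ^ 2 * (N + 1)) := by
        refine sum_le_sum fun r _ => mul_le_mul_of_nonneg_left ?_ (by positivity)
        refine (exp_prog_var hb hG hG0 hV hs r (J r)).trans ?_
        rw [← Real.exp_nat_mul]
        apply exp_le_exp.2
        have h1 : (J r : ℝ) ≤ N + 1 := by
          have h2 : J r ≤ N + 1 := by
            have h3 : (N + w - 1 - r) / w ≤ (N + w) / w := Nat.div_le_div_right (by omega)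
            rw [Nat.add_div_right _ (by omega)] at h3
            have := Nat.div_le_self N w
            simp only [hJ]
            omega
          exact_mod_cast h2
        have : 0 ≤ p * s ^ 2 := by positivity
        nlinarith
    _ = exp (p * s ^ 2 * (N + 1)) := by
        rw [sum_const, card_range, nsmul_eq_mul]
        field_simp

lemma pow_le_cosh (k : ℕ) {a y : ℝ} (ha : 0 < a) :
    y ^ (2 * k) ≤ ((2 * k).factorial : ℝ) * (1 / a) ^ (2 * k) * (exp (a * y) + exp (-a * y)) := by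
  have h1 := Real.pow_div_factorial_le_exp (|a * y|) (abs_nonneg _) (2 * k)
  have h2 : exp |a * y| ≤ exp (a * y) + exp (-a * y) := by
    rcases abs_choice (a * y) with h | h <;> rw [h]
    · have := exp_pos (-a * y); linarith
    · have := exp_pos (a * y)
      rw [neg_mul]
      linarith
  have h3 : |a * y| ^ (2 * k) = a ^ (2 * k) * y ^ (2 * k) := by
    rw [pow_mul, sq_abs, mul_pow, mul_pow, ← pow_mul, ← pow_mul]
  rw [h3, div_le_iff₀ (by positivity)] at h1
  have h4 : (0 : ℝ) < a ^ (2 * k) := by positivity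
  have h5 : a ^ (2 * k) * y ^ (2 * k) ≤ (exp (a * y) + exp (-a * y)) * (2 * k).factorial :=
    h1.trans (by gcongr)
  rw [one_div, inv_pow]
  have h6 : y ^ (2 * k) = (a ^ (2 * k))⁻¹ * (a ^ (2 * k) * y ^ (2 * k)) := by
    rw [← mul_assoc, inv_mul_cancel₀ h4.ne', one_mul]
  rw [h6]
  calc (a ^ (2 * k))⁻¹ * (a ^ (2 * k) * y ^ (2 * k)) ≤
      (a ^ (2 * k))⁻¹ * ((exp (a * y) + exp (-a * y)) * (2 * k).factorial) := by gcongr
    _ = _ := by ring

/-- the moments of even order -/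
lemma moment_Leb (hb : 1 ≤ b) (hw : 1 ≤ w) (hG : ∀ c, |G c| ≤ 1)
    (hG0 : ∑ c ∈ range (b ^ w), G c = 0) (hp : 0 ≤ p)
    (hV : (∑ c ∈ range (b ^ w), G c ^ 2) / (b : ℝ) ^ w ≤ p) (s N k : ℕ) :
    ∫ x, WS b w G s N x ^ (2 * k) ∂Leb ≤
      (2 * exp 1 * ((2 * k).factorial : ℝ)) * (w : ℝ) ^ (2 * k) * (1 + p * (N + 1)) ^ k := by
  have hw0 : (0 : ℝ) < w := by exact_mod_cast hw
  set V : ℝ := 1 + p * (N + 1) with hV'
  have hV1 : 1 ≤ V := by rw [hV']; have : 0 ≤ p * ((N : ℝ) + 1) := by positivity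
                         linarith
  have hV0 : 0 < V := by linarith
  set t : ℝ := 1 / √V with ht
  have hsq : 1 ≤ √V := Real.one_le_sqrt.2 hV1
  have hsq0 : 0 < √V := by linarith
  have ht0 : 0 < t := by rw [ht]; positivity
  have ht1 : t ≤ 1 := by rw [ht, div_le_one hsq0]; exact hsq
  have ht2 : t ^ 2 = 1 / V := by rw [ht, div_pow, one_pow, Real.sq_sqrt hV0.le]
  set a : ℝ := t / w with ha
  have ha0 : 0 < a := by rw [ha]; positivity
  have hXm : ∀ n, Measurable (Xw b w G n) := fun n => measurable_Xw _ _ _ _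
  have hSm : Measurable (fun x => ∑ n ∈ range N, Xw b w G n x) :=
    Finset.measurable_fun_sum _ fun j _ => hXm j
  have hSb : ∀ x, |∑ n ∈ range N, Xw b w G n x| ≤ N := by
    intro x
    refine (Finset.abs_sum_le_sum_abs _ _).trans ?_
    calc ∑ j ∈ range N, |Xw b w G j x| ≤ ∑ _j ∈ range N, (1 : ℝ) :=
          sum_le_sum fun j _ => hG _
      _ = N := by simp
  have e0 : ∫ x, WS b w G s N x ^ (2 * k) ∂Leb =
      ∫ x, (∑ n ∈ range N, Xw b w G n x) ^ (2 * k) ∂Leb := by
    simp only [WS_eq]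
    rw [invariance_real hb (h := fun y => (∑ n ∈ range N, Xw b w G n y) ^ (2 * k))
      (hSm.pow_const _) (C := (N : ℝ) ^ (2 * k))]
    intro x
    rw [abs_pow]
    exact pow_le_pow_left₀ (abs_nonneg _) (hSb x) _
  rw [e0]
  have hint : ∀ a : ℝ, Integrable (fun x => exp (a * ∑ n ∈ range N, Xw b w G n x)) Leb := by
    intro a
    refine integrable_of_bdd (Real.measurable_exp.comp (hSm.const_mul a)) (R := exp (|a| * N))
      fun x => ?_
    rw [abs_of_pos (exp_pos _)]
    apply exp_le_exp.2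
    refine (le_abs_self _).trans ?_
    rw [abs_mul]
    gcongr
    exact hSb x
  have h1 : ∫ x, (∑ n ∈ range N, Xw b w G n x) ^ (2 * k) ∂Leb ≤
      ∫ x, ((2 * k).factorial : ℝ) * (1 / a) ^ (2 * k) *
        (exp (a * ∑ n ∈ range N, Xw b w G n x) + exp (-a * ∑ n ∈ range N, Xw b w G n x)) ∂Leb := by
    refine integral_mono ?_ (((hint a).add (hint (-a))).const_mul _) fun x => pow_le_cosh k ha0
    refine integrable_of_bdd (hSm.pow_const _) (R := (N : ℝ) ^ (2 * k)) fun x => ?_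
    rw [abs_pow]
    exact pow_le_pow_left₀ (abs_nonneg _) (hSb x) _
  refine h1.trans ?_
  rw [integral_const_mul, integral_add (hint a) (hint (-a))]
  have hN1 : (0 : ℝ) ≤ p * (N + 1) := by positivity
  have h2 : ∫ x, exp (a * ∑ n ∈ range N, Xw b w G n x) ∂Leb ≤ exp 1 := by
    refine (exp_all hb hw hG hG0 hp hV (s := t) (by rw [abs_of_pos ht0]; exact ht1) N).trans ?_
    apply exp_le_exp.2
    rw [ht2]
    rw [show p * (1 / V) * ((N : ℝ) + 1) = p * (N + 1) / V by ring, div_le_one hV0]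
    rw [hV']; linarith
  have h3 : ∫ x, exp (-a * ∑ n ∈ range N, Xw b w G n x) ∂Leb ≤ exp 1 := by
    have h4 := exp_all hb hw hG hG0 hp hV (s := -t) (by rw [abs_neg, abs_of_pos ht0]; exact ht1) N
    rw [neg_div] at h4
    refine h4.trans ?_
    apply exp_le_exp.2
    rw [neg_sq, ht2]
    rw [show p * (1 / V) * ((N : ℝ) + 1) = p * (N + 1) / V by ring, div_le_one hV0]
    rw [hV']; linarith
  have h5 : (1 / a) ^ (2 * k) = (w : ℝ) ^ (2 * k) * V ^ k := by
    rw [ha, one_div_div, div_pow, pow_mul t, ht2, one_div, inv_pow, div_inv_eq_mul]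
  rw [h5]
  calc ((2 * k).factorial : ℝ) * ((w : ℝ) ^ (2 * k) * V ^ k) *
        (∫ x, exp (a * ∑ n ∈ range N, Xw b w G n x) ∂Leb +
          ∫ x, exp (-a * ∑ n ∈ range N, Xw b w G n x) ∂Leb) ≤
      ((2 * k).factorial : ℝ) * ((w : ℝ) ^ (2 * k) * V ^ k) * (exp 1 + exp 1) := by gcongr
    _ = _ := by ring

end Pool.Agent.W5h30.SR
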